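import Mathlib

namespace Pool.Agent.H.MP_180e15_co

open Finset

set_option linter.unusedSectionVars false

variable {P : Type} [PartialOrder P] [DecidableEq P] [DecidableLE P] [DecidableLT P]

def ia (x y : P) : ℤ := if y < x then 0 else 1
def ib (x y : P) : ℤ := if x < y then 1 else 0

theorem I1 (Q : Finset P) :
    ∑ x ∈ Q, ((∑ y ∈ Q, ia x y) + (∑ y ∈ Q, ib x y)) = (Q.card : ℤ) ^ 2 := by
  rw [sum_add_distrib, sum_comm (f := fun x y => ib x y), ← sum_add_distrib]
  have : ∀ x ∈ Q, (∑ y ∈ Q, ia x y) + (∑ y ∈ Q, ib y x) = Q.card := by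
    intro x _
    rw [← sum_add_distrib, sum_congr rfl (g := fun _ => (1 : ℤ))]
    · simp
    · intro y _
      unfold ia ib
      split_ifs <;> simp
  rw [sum_congr rfl this]
  simp [sq]

theorem I2 (Q : Finset P) :
    ∑ x ∈ Q, ((∑ y ∈ Q, ia x y) ^ 2 + (∑ y ∈ Q, ib x y) * (∑ y ∈ Q, ia x y)
      + (∑ y ∈ Q, ib x y) ^ 2) ≤ (Q.card : ℤ) ^ 3 := by
  have e0 : ∑ x ∈ Q, (∑ y ∈ Q, ia x y) ^ 2 = ∑ x ∈ Q, ∑ y ∈ Q, ∑ z ∈ Q, ia x y * ia x z := by
    simp only [sq, sum_mul_sum]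
  have e1 : ∑ x ∈ Q, (∑ y ∈ Q, ib x y) * (∑ y ∈ Q, ia x y) =
      ∑ x ∈ Q, ∑ y ∈ Q, ∑ z ∈ Q, ib y x * ia y z := by
    simp only [sum_mul_sum]
    rw [sum_comm]
  have e2 : ∑ x ∈ Q, (∑ y ∈ Q, ib x y) ^ 2 =
      ∑ x ∈ Q, ∑ y ∈ Q, ∑ z ∈ Q, ib z x * ib z y := by
    simp only [sq, sum_mul_sum]
    rw [sum_comm]
    exact sum_congr rfl fun x _ => sum_comm
  rw [sum_add_distrib, sum_add_distrib, e0, e1, e2]
  simp only [← sum_add_distrib]
  calc _ ≤ ∑ x ∈ Q, ∑ y ∈ Q, ∑ z ∈ Q, (1 : ℤ) := by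
        refine sum_le_sum fun x _ => sum_le_sum fun y _ => sum_le_sum fun z _ => ?_
        unfold ia ib
        split_ifs <;> simp_all
    _ = _ := by simp; ring

theorem I3 (Q : Finset P) :
    ∑ x ∈ Q, ((∑ y ∈ Q, ia x y) ^ 3 + (∑ y ∈ Q, ib x y) * (∑ y ∈ Q, ia x y) ^ 2
      + (∑ y ∈ Q, ib x y) ^ 2 * (∑ y ∈ Q, ia x y) + (∑ y ∈ Q, ib x y) ^ 3)
      ≤ (Q.card : ℤ) ^ 4 := by
  have m3 : ∀ f g h : P → ℤ, (∑ y ∈ Q, f y) * ((∑ y ∈ Q, g y) * (∑ y ∈ Q, h y)) =
      ∑ y ∈ Q, ∑ z ∈ Q, ∑ w ∈ Q, f y * (g z * h w) := by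
    intro f g h
    rw [sum_mul_sum, sum_mul]
    simp only [mul_sum]
  have e0 : ∑ x ∈ Q, (∑ y ∈ Q, ia x y) ^ 3 =
      ∑ x ∈ Q, ∑ y ∈ Q, ∑ z ∈ Q, ∑ w ∈ Q, ia x y * (ia x z * ia x w) := by
    refine sum_congr rfl fun x _ => ?_
    rw [← m3]; ring
  have e1 : ∑ x ∈ Q, (∑ y ∈ Q, ib x y) * (∑ y ∈ Q, ia x y) ^ 2 =
      ∑ x ∈ Q, ∑ y ∈ Q, ∑ z ∈ Q, ∑ w ∈ Q, ib y x * (ia y z * ia y w) := by
    rw [sum_comm]
    refine sum_congr rfl fun x _ => ?_
    rw [← m3]; ring
  have e2 : ∑ x ∈ Q, (∑ y ∈ Q, ib x y) ^ 2 * (∑ y ∈ Q, ia x y) =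
      ∑ x ∈ Q, ∑ y ∈ Q, ∑ z ∈ Q, ∑ w ∈ Q, ib z x * (ib z y * ia z w) := by
    rw [sum_congr rfl fun x _ => sum_comm, sum_comm]
    refine sum_congr rfl fun x _ => ?_
    rw [← m3]; ring
  have e3 : ∑ x ∈ Q, (∑ y ∈ Q, ib x y) ^ 3 =
      ∑ x ∈ Q, ∑ y ∈ Q, ∑ z ∈ Q, ∑ w ∈ Q, ib w x * (ib w y * ib w z) := by
    rw [sum_congr rfl fun x _ => sum_congr rfl fun y _ => sum_comm,
      sum_congr rfl fun x _ => sum_comm, sum_comm]
    refine sum_congr rfl fun x _ => ?_
    rw [← m3]; ring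
  rw [sum_add_distrib, sum_add_distrib, sum_add_distrib, e0, e1, e2, e3]
  simp only [← sum_add_distrib]
  calc _ ≤ ∑ x ∈ Q, ∑ y ∈ Q, ∑ z ∈ Q, ∑ w ∈ Q, (1 : ℤ) := by
        refine sum_le_sum fun x _ => sum_le_sum fun y _ => sum_le_sum fun z _ =>
          sum_le_sum fun w _ => ?_
        unfold ia ib
        split_ifs <;> simp_all
    _ = _ := by simp; ring

def up (Q : Finset P) (x : P) : Finset P := Q.filter (x < ·)
def nb (Q : Finset P) (x : P) : Finset P := Q.filter (fun y => ¬ y ≤ x)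

theorem card_up (Q : Finset P) (x : P) : ((up Q x).card : ℤ) = ∑ y ∈ Q, ib x y := by
  simp [up, ib]

theorem card_nb (Q : Finset P) (x : P) (hx : x ∈ Q) :
    ((nb Q x).card : ℤ) + 1 = ∑ y ∈ Q, ia x y := by
  have : ∑ y ∈ Q, ia x y = ∑ y ∈ Q, ((if ¬ y ≤ x then 1 else 0) + if y = x then 1 else 0) := by
    refine sum_congr rfl fun y _ => ?_
    unfold ia
    by_cases h1 : y = x
    · simp [h1]
    · by_cases h2 : y ≤ x
      · simp [h1, h2, lt_of_le_of_ne h2 h1]
      · have : ¬ y < x := fun h => h2 h.le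
        simp [h1, h2, this]
  rw [this, sum_add_distrib]
  simp [nb, card_filter, hx]

def T (a b : ℤ) : ℤ := a * (a + 1) * (a + 2) + a * (b + 2) * (a + b + 2) + b * (b + 1) * (b + 2)

theorem key (Q : Finset P) :
    ∑ x ∈ Q, T (nb Q x).card (up Q x).card ≤
      ((Q.card : ℤ) - 1) * (Q.card * (Q.card + 1) * (Q.card + 2)) := by
  have h1 := I1 Q
  have h2 := I2 Q
  have h3 := I3 Q
  have e : ∑ x ∈ Q, T (nb Q x).card (up Q x).card =
      ∑ x ∈ Q, (((∑ y ∈ Q, ia x y) ^ 3 + (∑ y ∈ Q, ib x y) * (∑ y ∈ Q, ia x y) ^ 2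
      + (∑ y ∈ Q, ib x y) ^ 2 * (∑ y ∈ Q, ia x y) + (∑ y ∈ Q, ib x y) ^ 3)
      + 2 * ((∑ y ∈ Q, ia x y) ^ 2 + (∑ y ∈ Q, ib x y) * (∑ y ∈ Q, ia x y)
      + (∑ y ∈ Q, ib x y) ^ 2) - ((∑ y ∈ Q, ia x y) + (∑ y ∈ Q, ib x y)) - 2) := by
    refine sum_congr rfl fun x hx => ?_
    rw [← card_up, ← card_nb Q x hx]
    unfold T
    ring
  rw [e, sum_sub_distrib, sum_sub_distrib, sum_add_distrib, ← mul_sum, h1]
  simp only [sum_const, nsmul_eq_mul]
  nlinarith

/-- recursive upper bound for the number of record chains -/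
def N : List P → Finset P → ℕ
  | [], _ => 0
  | [x], Q => if x ∈ Q then 1 else 0
  | x :: y :: l, Q => if x ∈ Q then N (y :: l) (nb Q x) + N (y :: l) (up Q x) else N (y :: l) Q

noncomputable def perms (S : Finset P) : Finset (List P) := S.toList.permutations.toFinset

omit [PartialOrder P] [DecidableLE P] [DecidableLT P] in
theorem mem_perms (S : Finset P) (l : List P) : l ∈ perms S ↔ l.Nodup ∧ l.toFinset = S := by
  unfold perms
  rw [List.mem_toFinset, List.mem_permutations]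
  constructor
  · intro h
    refine ⟨h.nodup_iff.2 (nodup_toList S), ?_⟩
    ext x
    rw [List.mem_toFinset, h.mem_iff, mem_toList]
  · rintro ⟨h1, rfl⟩
    exact (List.toFinset_toList h1).symm

omit [PartialOrder P] [DecidableLE P] [DecidableLT P] in
theorem sum_perms (S : Finset P) (hS : S.Nonempty) (f : List P → ℤ) :
    ∑ l ∈ perms S, f l = ∑ x ∈ S, ∑ l ∈ perms (S.erase x), f (x :: l) := by
  rw [sum_sigma']
  symm
  refine sum_bij (fun p _ => p.1 :: p.2) ?_ ?_ ?_ (fun _ _ => rfl)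
  · rintro ⟨x, l⟩ h
    obtain ⟨h1, h2⟩ := mem_sigma.1 h
    obtain ⟨h3, h4⟩ := (mem_perms _ _).1 h2
    refine (mem_perms _ _).2 ⟨List.nodup_cons.2 ⟨?_, h3⟩, ?_⟩
    · intro hx
      have : x ∈ l.toFinset := List.mem_toFinset.2 hx
      rw [h4] at this
      simp at this
    · rw [List.toFinset_cons, h4, insert_erase h1]
  · rintro ⟨x, l⟩ _ ⟨y, m⟩ _ h
    obtain ⟨rfl, rfl⟩ := List.cons.inj h
    rfl
  · intro l hl
    obtain ⟨h3, h4⟩ := (mem_perms _ _).1 hl
    cases l with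
    | nil => subst h4; simp at hS
    | cons x l =>
      obtain ⟨h5, h6⟩ := List.nodup_cons.1 h3
      refine ⟨⟨x, l⟩, mem_sigma.2 ⟨by simp [← h4], (mem_perms _ _).2 ⟨h6, ?_⟩⟩, rfl⟩
      rw [← h4, List.toFinset_cons, erase_insert (by simpa using h5)]

theorem cs (K a b X Y Z : ℤ) (hK : 0 ≤ K) (hb : 0 ≤ b) (hab : b ≤ a) (hX0 : 0 ≤ X) (hY0 : 0 ≤ Y)
    (hX : 6 * X ≤ K * (a * (a + 1) * (a + 2))) (hY : 6 * Y ≤ K * (b * (b + 1) * (b + 2)))
    (hZ : Z ^ 2 ≤ X * Y) : 6 * (X + 2 * Z + Y) ≤ K * T a b := by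
  have ha : 0 ≤ a := hb.trans hab
  have h1 : (12 * Z) ^ 2 ≤ (K * (a * (b + 2) * (a + b + 2))) ^ 2 := by
    have s1 : (6 * X) * (6 * Y) ≤ (K * (a * (a + 1) * (a + 2))) * (K * (b * (b + 1) * (b + 2))) :=
      mul_le_mul hX hY (by positivity) (by positivity)
    have s2 : 4 * ((a + 1) * (b + 1)) ≤ (a + b + 2) ^ 2 := by nlinarith [sq_nonneg (a - b)]
    have s3 : b * (a + 2) ≤ a * (b + 2) := by nlinarith
    have s4 : (4 * ((a + 1) * (b + 1))) * (b * (a + 2)) ≤ (a + b + 2) ^ 2 * (a * (b + 2)) :=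
      mul_le_mul s2 s3 (by positivity) (by positivity)
    have s5 := mul_le_mul_of_nonneg_left s4 (show 0 ≤ K ^ 2 * (a * (b + 2)) by positivity)
    nlinarith
  have h2 := abs_le_of_sq_le_sq' h1 (by positivity)
  unfold T
  nlinarith [h2.2]

theorem main (n : ℕ) : ∀ S : Finset P, S.card = n + 1 → ∀ Q ⊆ S,
    6 * ∑ l ∈ perms S, (N l Q : ℤ) ^ 2 ≤
      (n.factorial : ℤ) * (Q.card * (Q.card + 1) * (Q.card + 2)) := by
  induction n with
  | zero =>
    intro S hS Q hQ
    obtain ⟨x, rfl⟩ := card_eq_one.1 hS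
    rw [sum_perms _ (by simp)]
    have : perms (∅ : Finset P) = {[]} := by simp [perms]
    rcases subset_singleton_iff.1 hQ with rfl | rfl <;> simp [this, N]
  | succ n ih =>
    intro S hS Q hQ
    rw [sum_perms _ (card_pos.1 (by omega)), mul_sum, ← sum_sdiff hQ]
    have ne : ∀ x ∈ S, ∀ l ∈ perms (S.erase x), ∃ y m, l = y :: m := by
      intro x hx l hl
      cases l with
      | nil =>
        have := ((mem_perms _ _).1 hl).2
        have h2 := card_erase_of_mem hx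
        rw [← this] at h2
        simp at h2
        omega
      | cons y m => exact ⟨y, m, rfl⟩
    have b1 : ∀ x ∈ S \ Q, 6 * ∑ l ∈ perms (S.erase x), (N (x :: l) Q : ℤ) ^ 2 ≤
        (n.factorial : ℤ) * (Q.card * (Q.card + 1) * (Q.card + 2)) := by
      intro x hx
      obtain ⟨h1, h2⟩ := mem_sdiff.1 hx
      have := ih (S.erase x) (by rw [card_erase_of_mem h1]; omega) Q
        (fun y hy => mem_erase.2 ⟨fun h => h2 (h ▸ hy), hQ hy⟩)
      refine le_trans (le_of_eq ?_) this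
      congr 1
      refine sum_congr rfl fun l hl => ?_
      obtain ⟨y, m, rfl⟩ := ne x h1 l hl
      simp [N, h2]
    have b2 : ∀ x ∈ Q, 6 * ∑ l ∈ perms (S.erase x), (N (x :: l) Q : ℤ) ^ 2 ≤
        (n.factorial : ℤ) * T (nb Q x).card (up Q x).card := by
      intro x hx
      have h1 := hQ hx
      have hc : (S.erase x).card = n + 1 := by rw [card_erase_of_mem h1]; omega
      have iA := ih (S.erase x) hc (nb Q x) (fun y hy => by
        obtain ⟨a, b⟩ := mem_filter.1 hy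
        exact mem_erase.2 ⟨fun h => b (h ▸ le_rfl), hQ a⟩)
      have iB := ih (S.erase x) hc (up Q x) (fun y hy => by
        obtain ⟨a, b⟩ := mem_filter.1 hy
        exact mem_erase.2 ⟨fun h => lt_irrefl _ (h ▸ b), hQ a⟩)
      have hsub : up Q x ⊆ nb Q x := fun y hy => by
        obtain ⟨a, b⟩ := mem_filter.1 hy
        exact mem_filter.2 ⟨a, not_le_of_gt b⟩
      have := cs n.factorial (nb Q x).card (up Q x).card _ _
        (∑ l ∈ perms (S.erase x), (N l (nb Q x) : ℤ) * (N l (up Q x) : ℤ)) (by positivity)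
        (by positivity) (by exact_mod_cast card_le_card hsub) (by positivity) (by positivity)
        iA iB (sum_mul_sq_le_sq_mul_sq _ _ _)
      refine le_trans (le_of_eq ?_) this
      congr 1
      rw [mul_sum, ← sum_add_distrib, ← sum_add_distrib]
      refine sum_congr rfl fun l hl => ?_
      obtain ⟨y, m, rfl⟩ := ne x h1 l hl
      simp only [N, hx, if_true]
      push_cast
      ring
    have c1 := sum_le_sum b1
    have c2 := sum_le_sum b2
    rw [sum_const, nsmul_eq_mul, card_sdiff_of_subset hQ, Nat.cast_sub (card_le_card hQ), hS] at c1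
    have k := mul_le_mul_of_nonneg_left (key Q) (show (0 : ℤ) ≤ n.factorial by positivity)
    rw [mul_sum] at k
    rw [Nat.factorial_succ]
    push_cast at c1 ⊢
    nlinarith

/-- counting record chains: `M` is the label function, `t` a maximal element -/
theorem chains_le (M : P → ℕ) (t : P) (ht : IsMax t) :
    ∀ (l : List P), l.Pairwise (fun a b => M a < M b) → t ∈ l → ∀ (Q : Finset P), t ∈ Q →
      ∀ F : Finset (Finset P), (∀ C ∈ F, (∀ c ∈ C, c ∈ Q ∧ c ∈ l ∧ c < t ∧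
        ∀ y, c < y → M c < M y) ∧ (∀ c ∈ C, ∀ d ∈ C, c ≤ d ∨ d ≤ c)) →
      (∀ c, c < t → c ∈ l → M c < M t) → (∀ z ∈ l, M z ≤ M t) → F.card ≤ N l Q := by
  intro l
  induction l with
  | nil => intro _ h; simp at h
  | cons x l ih =>
    intro hp htl Q htQ F hF h0 hmax
    obtain ⟨hp1, hp2⟩ := List.pairwise_cons.1 hp
    cases l with
    | nil =>
      have : t = x := by simpa using htl
      subst this
      simp only [N, htQ, if_true]
      refine card_le_one.2 fun a ha b hb => ?_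
      have e : ∀ C ∈ F, C = ∅ := by
        intro C hC
        refine eq_empty_of_forall_notMem fun c hc => ?_
        obtain ⟨_, h2, h3, _⟩ := (hF C hC).1 c hc
        have : c = t := by simpa using h2
        exact lt_irrefl _ (this ▸ h3)
      rw [e a ha, e b hb]
    | cons y m =>
      have htx : t ≠ x := by
        rintro rfl
        have := hp1 y (by simp)
        have := hmax y (by simp)
        omega
      have htl' : t ∈ y :: m := by
        rcases List.mem_cons.1 htl with h | h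
        · exact absurd h htx
        · exact h
      have h0' : ∀ c, c < t → c ∈ y :: m → M c < M t :=
        fun c a b => h0 c a (List.mem_cons_of_mem _ b)
      have hmax' : ∀ z ∈ y :: m, M z ≤ M t := fun z b => hmax z (List.mem_cons_of_mem _ b)
      have tail : ∀ C ∈ F, ∀ c ∈ C, c ≠ x → c ∈ y :: m ∧ ¬ c ≤ x := by
        intro C hC c hc hne
        obtain ⟨_, h2, _, h4⟩ := (hF C hC).1 c hc
        have hm : c ∈ y :: m := by
          rcases List.mem_cons.1 h2 with h | h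
          · exact absurd h hne
          · exact h
        refine ⟨hm, fun hle => ?_⟩
        have := h4 x (lt_of_le_of_ne hle hne)
        have := hp1 c hm
        omega
      by_cases hx : x ∈ Q
      · simp only [N, hx, if_true]
        rw [← card_filter_add_card_filter_not (s := F) (fun C => x ∉ C)]
        refine add_le_add ?_ ?_
        · refine ih hp2 htl' (nb Q x)
            (mem_filter.2 ⟨htQ, fun h => htx (le_antisymm h (ht h))⟩) _ ?_ h0' hmax'
          intro C hC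
          obtain ⟨hC, hxC⟩ := mem_filter.1 hC
          refine ⟨fun c hc => ?_, (hF C hC).2⟩
          obtain ⟨h1, _, h3, h4⟩ := (hF C hC).1 c hc
          have := tail C hC c hc (fun h => hxC (h ▸ hc))
          exact ⟨mem_filter.2 ⟨h1, this.2⟩, this.1, h3, h4⟩
        · rcases (F.filter (fun C => ¬ x ∉ C)).eq_empty_or_nonempty with he | ⟨C0, hC0⟩
          · rw [he]; simp
          have hxt : x < t := by
            obtain ⟨a, b⟩ := mem_filter.1 hC0
            exact ((hF C0 a).1 x (not_not.1 b)).2.2.1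
          rw [← card_image_of_injOn (f := fun C => C.erase x)]
          · refine ih hp2 htl' (up Q x) (mem_filter.2 ⟨htQ, hxt⟩) _ ?_ h0' hmax'
            intro D hD
            obtain ⟨C, hC, rfl⟩ := mem_image.1 hD
            obtain ⟨hC, hxC⟩ := mem_filter.1 hC
            refine ⟨fun c hc => ?_, fun c hc d hd =>
              (hF C hC).2 c (mem_of_mem_erase hc) d (mem_of_mem_erase hd)⟩
            obtain ⟨hne, hc⟩ := mem_erase.1 hc
            obtain ⟨h1, _, h3, h4⟩ := (hF C hC).1 c hc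
            have := tail C hC c hc hne
            refine ⟨mem_filter.2 ⟨h1, ?_⟩, this.1, h3, h4⟩
            rcases (hF C hC).2 c hc x (not_not.1 hxC) with h | h
            · exact absurd h this.2
            · exact lt_of_le_of_ne h (Ne.symm hne)
          · intro C hC D hD h
            have a := not_not.1 (mem_filter.1 (mem_coe.1 hC)).2
            have b := not_not.1 (mem_filter.1 (mem_coe.1 hD)).2
            rw [← insert_erase a, ← insert_erase b]
            exact congrArg _ h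
      · simp only [N, hx, if_false]
        refine ih hp2 htl' Q htQ F ?_ h0' hmax'
        intro C hC
        refine ⟨fun c hc => ?_, (hF C hC).2⟩
        obtain ⟨h1, _, h3, h4⟩ := (hF C hC).1 c hc
        exact ⟨h1, (tail C hC c hc (fun h => hx (h ▸ h1))).1, h3, h4⟩

end Pool.Agent.H.MP_180e15_co
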